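import Mathlib

/-!
# Uniform exponents of the power series of Mahler

Let `ξ = T⁻¹ + T^(-p) + T^(-p²) + …`. The rational functions `r k = T⁻¹ + … + T^(-p^k)` have denominator `Q k = T^(p^k)`
and `|ξ - r k| = |Q k|^(-p)`. Let `α ≠ r k` have degree at most `n` and height `h < |Q k|^(p - n)`. By Liouville's
inequality `|α - r k| ≥ h⁻¹ |Q k|^(-n) > |ξ - r k|`, so `|ξ - α| ≥ h⁻¹ |Q k|^(-n)`. So for `H` slightly below
`|Q k|^(p - n)` the best approximation of height at most `H` is `r k`, and this gives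
`ŵ*_n(ξ) ≤ (p - 1) / (p - n)`, which is less than `n` for `p > n + 1`, `n ≥ 2`.
-/

set_option autoImplicit false

open Polynomial

namespace Pool.Agent.Results.MP_7488b5_nt.MahlerRoots

variable (p : ℕ) [Fact p.Prime]

/-- The embedding of `𝔽_p[T]` into `𝔽_p((T⁻¹))`. The variable of the Laurent series stands for `T⁻¹`, so `T` is
mapped to `single (-1) 1`. -/
noncomputable def emb : (ZMod p)[X] →+* LaurentSeries (ZMod p) :=
  Polynomial.eval₂RingHom (HahnSeries.C : ZMod p →+* LaurentSeries (ZMod p))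
    (HahnSeries.single (-1 : ℤ) (1 : ZMod p))

open Classical in
/-- the absolute value of `𝔽_p((T⁻¹))` -/
noncomputable def absv (x : LaurentSeries (ZMod p)) : ℝ := if x = 0 then 0 else (p : ℝ) ^ (-x.order)

/-- `|R| = p ^ deg R` for `R` in `𝔽_p[T]` -/
noncomputable def absT (R : (ZMod p)[X]) : ℝ := if R = 0 then 0 else (p : ℝ) ^ R.natDegree

/-- the height of `P` in `𝔽_p[T][X]`: the maximum of the absolute values of the coefficients -/
noncomputable def height (P : (ZMod p)[X][X]) : ℝ :=
  (Finset.range (P.natDegree + 1)).sup' ⟨0, by simp⟩ fun i => absT p (P.coeff i)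

/-- `P` is a minimal defining polynomial of `α` over `𝔽_p[T]` (it is unique up to a unit of `𝔽_p`) -/
def IsMinDef (P : (ZMod p)[X][X]) (α : LaurentSeries (ZMod p)) : Prop :=
  Irreducible P ∧ P.eval₂ (emb p) α = 0

/-- the property in the definition of `ŵ*_n(ξ)` -/
def StarProp (n : ℕ) (ξ : LaurentSeries (ZMod p)) (w : ℝ) : Prop :=
  ∃ H₀ : ℝ, ∀ H : ℝ, H₀ < H → ∃ (α : LaurentSeries (ZMod p)) (P : (ZMod p)[X][X]),
    IsMinDef p P α ∧ P.natDegree ≤ n ∧ height p P ≤ H ∧
      0 < absv p (ξ - α) ∧ absv p (ξ - α) < (height p P)⁻¹ * H ^ (-w)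

/-- the uniform exponent `ŵ*_n(ξ)`: the supremum of all real numbers `w` with the property `StarProp` -/
noncomputable def uniformStar (n : ℕ) (ξ : LaurentSeries (ZMod p)) : EReal :=
  sSup ((fun w : ℝ => (w : EReal)) '' {w : ℝ | StarProp p n ξ w})

/-! ### The absolute value -/

lemma p_pos : (0 : ℝ) < p := by exact_mod_cast (Fact.out : p.Prime).pos

lemma one_lt_p : (1 : ℝ) < p := by exact_mod_cast (Fact.out : p.Prime).one_lt

lemma absv_zero : absv p 0 = 0 := by simp [absv]

lemma absv_nonneg (x : LaurentSeries (ZMod p)) : 0 ≤ absv p x := by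
  unfold absv
  split_ifs
  · exact le_rfl
  · exact (zpow_pos (p_pos p) _).le

lemma absv_pos {x : LaurentSeries (ZMod p)} (h : x ≠ 0) : 0 < absv p x := by
  unfold absv
  rw [if_neg h]
  exact zpow_pos (p_pos p) _

lemma absv_eq_zero {x : LaurentSeries (ZMod p)} : absv p x = 0 ↔ x = 0 := by
  constructor
  · intro h
    by_contra hx
    exact (absv_pos p hx).ne' h
  · rintro rfl
    exact absv_zero p

lemma absv_mul (x y : LaurentSeries (ZMod p)) : absv p (x * y) = absv p x * absv p y := by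
  by_cases hx : x = 0
  · simp [hx, absv_zero]
  by_cases hy : y = 0
  · simp [hy, absv_zero]
  unfold absv
  rw [if_neg hx, if_neg hy, if_neg (mul_ne_zero hx hy), HahnSeries.order_mul hx hy,
    ← zpow_add₀ (p_pos p).ne']
  congr 1
  ring

lemma absv_one : absv p 1 = 1 := by
  have h := absv_mul p 1 1
  rw [mul_one] at h
  have h1 := absv_pos p (one_ne_zero (α := LaurentSeries (ZMod p)))
  nlinarith

lemma absv_pow (x : LaurentSeries (ZMod p)) (n : ℕ) : absv p (x ^ n) = absv p x ^ n := by
  induction n with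
  | zero => rw [pow_zero, pow_zero, absv_one]
  | succ n ih => rw [pow_succ, pow_succ, absv_mul, ih]

lemma absv_neg (x : LaurentSeries (ZMod p)) : absv p (-x) = absv p x := by
  unfold absv
  rw [HahnSeries.order_neg]
  by_cases h : x = 0
  · simp [h]
  · rw [if_neg h, if_neg (neg_ne_zero.2 h)]

lemma absv_add (x y : LaurentSeries (ZMod p)) : absv p (x + y) ≤ max (absv p x) (absv p y) := by
  by_cases hxy : x + y = 0
  · rw [hxy, absv_zero]
    exact le_max_of_le_left (absv_nonneg p x)
  by_cases hx : x = 0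
  · rw [hx, zero_add]
    exact le_max_right _ _
  by_cases hy : y = 0
  · rw [hy, add_zero]
    exact le_max_left _ _
  have h := HahnSeries.min_order_le_order_add hxy
  unfold absv
  rw [if_neg hx, if_neg hy, if_neg hxy]
  rcases min_le_iff.1 h with h | h
  · apply le_max_of_le_left
    exact zpow_le_zpow_right₀ (one_lt_p p).le (neg_le_neg h)
  · apply le_max_of_le_right
    exact zpow_le_zpow_right₀ (one_lt_p p).le (neg_le_neg h)

lemma absv_sub_comm (x y : LaurentSeries (ZMod p)) : absv p (x - y) = absv p (y - x) := by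
  rw [← neg_sub, absv_neg]

lemma absv_sum {ι : Type} (s : Finset ι) (f : ι → LaurentSeries (ZMod p)) (C : ℝ) (hC : 0 ≤ C)
    (h : ∀ i ∈ s, absv p (f i) ≤ C) : absv p (∑ i ∈ s, f i) ≤ C := by
  classical
  induction s using Finset.induction_on with
  | empty => simpa [absv_zero] using hC
  | insert i s hi ih =>
    rw [Finset.sum_insert hi]
    refine (absv_add p _ _).trans (max_le (h i (Finset.mem_insert_self i s)) ?_)
    exact ih fun j hj => h j (Finset.mem_insert_of_mem hj)

lemma emb_coeff (R : (ZMod p)[X]) (k : ℤ) :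
    (emb p R).coeff k = if k ≤ 0 then R.coeff (-k).toNat else 0 := by
  induction R using Polynomial.induction_on' with
  | add f g hf hg =>
    rw [map_add, HahnSeries.coeff_add, hf, hg, Polynomial.coeff_add]
    split_ifs <;> simp
  | monomial n a =>
    have e : emb p (monomial n a) = HahnSeries.single (-(n : ℤ)) a := by
      unfold emb
      rw [coe_eval₂RingHom, eval₂_monomial, HahnSeries.single_pow, HahnSeries.C_apply,
        HahnSeries.single_mul_single]
      simp
    rw [e, HahnSeries.coeff_single, Polynomial.coeff_monomial]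
    by_cases hk : k = -(n : ℤ)
    · rw [if_pos hk, if_pos (by omega), if_pos (by omega)]
    · rw [if_neg hk]
      split_ifs with h1 h2
      · exfalso; omega
      · rfl
      · rfl

lemma absv_emb (R : (ZMod p)[X]) : absv p (emb p R) = absT p R := by
  by_cases hR : R = 0
  · rw [hR, map_zero, absv_zero]
    simp [absT]
  have hc : (emb p R).coeff (-(R.natDegree : ℤ)) ≠ 0 := by
    rw [emb_coeff, if_pos (by omega)]
    have : (- -(R.natDegree : ℤ)).toNat = R.natDegree := by omega
    rw [this]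
    exact leadingCoeff_ne_zero.2 hR
  have hne : emb p R ≠ 0 := by
    intro h
    rw [h] at hc
    exact hc rfl
  have horder : (emb p R).order = -(R.natDegree : ℤ) := by
    apply le_antisymm (HahnSeries.order_le_of_coeff_ne_zero hc)
    by_contra hcon
    push Not at hcon
    have h1 := mt HahnSeries.coeff_order_eq_zero.1 hne
    apply h1
    rw [emb_coeff, if_pos (by omega)]
    apply coeff_eq_zero_of_natDegree_lt
    omega
  unfold absv absT
  rw [if_neg hne, if_neg hR, horder, neg_neg, zpow_natCast]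

lemma absT_nonneg (R : (ZMod p)[X]) : 0 ≤ absT p R := by
  rw [← absv_emb]
  exact absv_nonneg p _

lemma one_le_absT {R : (ZMod p)[X]} (h : R ≠ 0) : 1 ≤ absT p R := by
  unfold absT
  rw [if_neg h]
  exact one_le_pow₀ (one_lt_p p).le

lemma emb_injective : Function.Injective (emb p) := by
  rw [injective_iff_map_eq_zero]
  intro R h
  by_contra hR
  have h1 := one_le_absT p hR
  rw [← absv_emb, h, absv_zero] at h1
  linarith

lemma coeff_le_height (P : (ZMod p)[X][X]) (i : ℕ) : absT p (P.coeff i) ≤ height p P := by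
  unfold height
  by_cases hi : i ≤ P.natDegree
  · exact Finset.le_sup' (fun i => absT p (P.coeff i)) (Finset.mem_range.2 (by omega))
  · rw [coeff_eq_zero_of_natDegree_lt (by omega)]
    have e : absT p 0 = 0 := by simp [absT]
    rw [e]
    exact (absT_nonneg p _).trans
      (Finset.le_sup' (fun i => absT p (P.coeff i)) (Finset.mem_range.2 (Nat.succ_pos _) : (0 : ℕ) ∈ _))

lemma one_le_height {P : (ZMod p)[X][X]} (h : P ≠ 0) : 1 ≤ height p P :=
  (one_le_absT p (leadingCoeff_ne_zero.2 h)).trans (coeff_le_height p P _)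

/-! ### Liouville's inequality -/

/-- the homogenization of `P` at `(a, b)` -/
noncomputable def hom (P : (ZMod p)[X][X]) (n : ℕ) (a b : (ZMod p)[X]) : (ZMod p)[X] :=
  ∑ i ∈ Finset.range (n + 1), P.coeff i * a ^ i * b ^ (n - i)

lemma map_hom {M : Type} [CommRing M] (f : (ZMod p)[X] →+* M) (P : (ZMod p)[X][X]) (n : ℕ)
    (hn : P.natDegree ≤ n) (a b : (ZMod p)[X]) (r : M) (hr : f b * r = f a) :
    f (hom p P n a b) = f b ^ n * P.eval₂ f r := by
  unfold hom
  rw [map_sum, eval₂_eq_sum_range' f (Nat.lt_succ_of_le hn), Finset.mul_sum]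
  apply Finset.sum_congr rfl
  intro i hi
  rw [Finset.mem_range] at hi
  rw [map_mul, map_mul, map_pow, map_pow, ← hr]
  have e : f b ^ n = f b ^ i * f b ^ (n - i) := by rw [← pow_add]; congr 1; omega
  rw [e]
  ring

/-- `|P(r) - P(α)| ≤ H(P) |r - α|` if `|r|, |α| ≤ 1` -/
lemma eval_sub_le (P : (ZMod p)[X][X]) (r α : LaurentSeries (ZMod p)) (hr : absv p r ≤ 1)
    (hα : absv p α ≤ 1) :
    absv p (P.eval₂ (emb p) r - P.eval₂ (emb p) α) ≤ height p P * absv p (r - α) := by
  have hpow : ∀ i : ℕ, absv p (r ^ i - α ^ i) ≤ absv p (r - α) := by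
    intro i
    induction i with
    | zero => simpa [absv_zero] using absv_nonneg p (r - α)
    | succ i ih =>
      have e : r ^ (i + 1) - α ^ (i + 1) = r * (r ^ i - α ^ i) + α ^ i * (r - α) := by ring
      rw [e]
      refine (absv_add p _ _).trans (max_le ?_ ?_)
      · rw [absv_mul]
        calc absv p r * absv p (r ^ i - α ^ i) ≤ 1 * absv p (r - α) :=
              mul_le_mul hr ih (absv_nonneg p _) zero_le_one
          _ = _ := one_mul _
      · rw [absv_mul, absv_pow]
        calc absv p α ^ i * absv p (r - α) ≤ 1 * absv p (r - α) :=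
              mul_le_mul_of_nonneg_right (pow_le_one₀ (absv_nonneg p _) hα) (absv_nonneg p _)
          _ = _ := one_mul _
  rw [eval₂_eq_sum_range, eval₂_eq_sum_range, ← Finset.sum_sub_distrib]
  apply absv_sum
  · exact mul_nonneg ((absT_nonneg p _).trans (coeff_le_height p P 0)) (absv_nonneg p _)
  · intro i _
    rw [← mul_sub, absv_mul, absv_emb]
    exact mul_le_mul (coeff_le_height p P i) (hpow i) (absv_nonneg p _)
      ((absT_nonneg p _).trans (coeff_le_height p P 0))

/-- an irreducible polynomial with a rational root `r` is linear, and `r` is its only root -/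
lemma root_unique (P : (ZMod p)[X][X]) (hP : Irreducible P) (a b : (ZMod p)[X]) (hb : b ≠ 0)
    (r α : LaurentSeries (ZMod p)) (hr : emb p b * r = emb p a) (hr0 : P.eval₂ (emb p) r = 0)
    (hα : P.eval₂ (emb p) α = 0) : α = r := by
  classical
  have hdeg0 : P.natDegree ≠ 0 := by
    intro h0
    rw [eq_C_of_natDegree_eq_zero h0, eval₂_C] at hr0
    have := emb_injective p (hr0.trans (map_zero _).symm)
    apply hP.ne_zero
    rw [eq_C_of_natDegree_eq_zero h0, this, map_zero]
  have hprim := hP.isPrimitive hdeg0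
  set L := FractionRing (ZMod p)[X] with hL
  have hirr : Irreducible (P.map (algebraMap (ZMod p)[X] L)) :=
    (hprim.irreducible_iff_irreducible_map_fraction_map (K := L)).1 hP
  have hbL : algebraMap (ZMod p)[X] L b ≠ 0 := by
    rw [Ne, FaithfulSMul.algebraMap_eq_zero_iff]
    exact hb
  set s : L := algebraMap (ZMod p)[X] L a / algebraMap (ZMod p)[X] L b with hs
  have hom0 : hom p P P.natDegree a b = 0 := by
    apply emb_injective p
    rw [map_hom p (emb p) P P.natDegree le_rfl a b r hr, hr0, mul_zero, map_zero]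
  have hroot : IsRoot (P.map (algebraMap (ZMod p)[X] L)) s := by
    have h1 := map_hom p (algebraMap (ZMod p)[X] L) P P.natDegree le_rfl a b s (by
      rw [hs, mul_div_assoc', mul_comm, mul_div_assoc, div_self hbL, mul_one])
    rw [hom0, map_zero] at h1
    rw [IsRoot, eval_map]
    exact (mul_eq_zero.1 h1.symm).resolve_left (pow_ne_zero _ hbL)
  have hdeg := degree_eq_one_of_irreducible_of_root hirr hroot
  rw [degree_map_eq_of_injective (IsFractionRing.injective _ _)] at hdeg
  have hnat : P.natDegree = 1 := natDegree_eq_of_degree_eq_some hdeg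
  rw [eval₂_eq_sum_range, hnat, Finset.sum_range_succ, Finset.sum_range_one] at hr0 hα
  have h1 : emb p (P.coeff 1) ≠ 0 := by
    intro h
    have := emb_injective p (h.trans (map_zero _).symm)
    have h2 : P.leadingCoeff = 0 := by rw [leadingCoeff, hnat]; exact this
    exact hP.ne_zero (leadingCoeff_eq_zero.1 h2)
  apply mul_left_cancel₀ h1
  linear_combination hα - hr0

/-! ### The power series of Mahler -/

/-- `ξ = T⁻¹ + T^(-p) + T^(-p²) + …` as a power series in `T⁻¹` -/
noncomputable def xiP : PowerSeries (ZMod p) := by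
  classical
  exact PowerSeries.mk fun n => if ∃ j : ℕ, n = p ^ j then 1 else 0

/-- `ξ` -/
noncomputable def xi : LaurentSeries (ZMod p) := HahnSeries.ofPowerSeries ℤ (ZMod p) (xiP p)

/-- the partial sums -/
noncomputable def SP (k : ℕ) : PowerSeries (ZMod p) := ∑ j ∈ Finset.range (k + 1), PowerSeries.X ^ (p ^ j)

/-- the partial sums as Laurent series -/
noncomputable def S (k : ℕ) : LaurentSeries (ZMod p) := HahnSeries.ofPowerSeries ℤ (ZMod p) (SP p k)

lemma coeff_SP (k m : ℕ) : PowerSeries.coeff m (SP p k) =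
    ∑ j ∈ Finset.range (k + 1), if m = p ^ j then (1 : ZMod p) else 0 := by
  unfold SP
  rw [map_sum]
  apply Finset.sum_congr rfl
  intro j _
  rw [PowerSeries.coeff_X_pow]

lemma pow_inj {i j : ℕ} (h : p ^ i = p ^ j) : i = j :=
  Nat.pow_right_injective (Fact.out : p.Prime).two_le h

lemma coeff_diff_lt (k m : ℕ) (hm : m < p ^ (k + 1)) :
    PowerSeries.coeff m (xiP p - SP p k) = 0 := by
  classical
  rw [map_sub, coeff_SP, xiP, PowerSeries.coeff_mk, sub_eq_zero]
  by_cases h : ∃ j : ℕ, m = p ^ j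
  · rw [if_pos h]
    obtain ⟨j, rfl⟩ := h
    have hj : j < k + 1 := (Nat.pow_lt_pow_iff_right (Fact.out : p.Prime).one_lt).1 hm
    rw [Finset.sum_eq_single j]
    · rw [if_pos rfl]
    · intro i _ hij
      rw [if_neg]
      intro h
      exact hij (pow_inj p h).symm
    · intro hj'
      exact absurd (Finset.mem_range.2 hj) hj'
  · rw [if_neg h]
    symm
    apply Finset.sum_eq_zero
    intro j _
    rw [if_neg]
    intro h'
    exact h ⟨j, h'⟩

lemma coeff_diff_eq (k : ℕ) : PowerSeries.coeff (p ^ (k + 1)) (xiP p - SP p k) = 1 := by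
  classical
  rw [map_sub, coeff_SP, xiP, PowerSeries.coeff_mk, if_pos ⟨k + 1, rfl⟩]
  rw [Finset.sum_eq_zero, sub_zero]
  intro j hj
  rw [if_neg]
  intro h
  have := pow_inj p h
  rw [Finset.mem_range] at hj
  omega

/-- `|ξ - r k| = |Q k| ^ (-p)` -/
lemma absv_diff (k : ℕ) : absv p (xi p - S p k) = (p : ℝ) ^ (-((p ^ (k + 1) : ℕ) : ℤ)) := by
  have e : xi p - S p k = HahnSeries.ofPowerSeries ℤ (ZMod p) (xiP p - SP p k) := by
    unfold xi S
    rw [map_sub]
  have hc : (xi p - S p k).coeff ((p ^ (k + 1) : ℕ) : ℤ) = 1 := by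
    rw [e, HahnSeries.ofPowerSeries_apply_coeff, coeff_diff_eq]
  have hne : xi p - S p k ≠ 0 := by
    intro h
    rw [h] at hc
    exact zero_ne_one hc
  have ho : (xi p - S p k).order = ((p ^ (k + 1) : ℕ) : ℤ) := by
    apply le_antisymm
    · apply HahnSeries.order_le_of_coeff_ne_zero
      rw [hc]
      exact one_ne_zero
    · by_contra hcon
      push Not at hcon
      apply mt HahnSeries.coeff_order_eq_zero.1 hne
      rcases lt_or_ge (xi p - S p k).order 0 with h | h
      · rw [e]
        rw [e] at h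
        have h2 := PowerSeries.coeff_coe (xiP p - SP p k)
          (HahnSeries.ofPowerSeries ℤ (ZMod p) (xiP p - SP p k)).order
        rw [if_pos h] at h2
        exact h2
      · obtain ⟨m, hm⟩ := Int.eq_ofNat_of_zero_le h
        rw [hm] at hcon ⊢
        rw [e, HahnSeries.ofPowerSeries_apply_coeff]
        apply coeff_diff_lt
        exact_mod_cast hcon
  unfold absv
  rw [if_neg hne, ho]

/-- the absolute value of a power series in `T⁻¹` is at most one -/
lemma absv_ofPowerSeries_le (f : PowerSeries (ZMod p)) :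
    absv p (HahnSeries.ofPowerSeries ℤ (ZMod p) f) ≤ 1 := by
  unfold absv
  split_ifs with h
  · exact zero_le_one
  · have ho : 0 ≤ (HahnSeries.ofPowerSeries ℤ (ZMod p) f).order := by
      by_contra hcon
      push Not at hcon
      apply mt HahnSeries.coeff_order_eq_zero.1 h
      have h2 := PowerSeries.coeff_coe f (HahnSeries.ofPowerSeries ℤ (ZMod p) f).order
      rw [if_pos hcon] at h2
      exact h2
    rw [zpow_neg]
    exact inv_le_one_of_one_le₀ (one_le_zpow₀ (one_lt_p p).le ho)

/-- numerator of the partial sums -/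
noncomputable def Nu (k : ℕ) : (ZMod p)[X] := ∑ j ∈ Finset.range (k + 1), X ^ (p ^ k - p ^ j)

lemma emb_X_pow (m : ℕ) : emb p (X ^ m) = HahnSeries.single (-(m : ℤ)) 1 := by
  unfold emb
  rw [map_pow, coe_eval₂RingHom, eval₂_X, HahnSeries.single_pow]
  simp

lemma den_mul (k : ℕ) : emb p (X ^ (p ^ k)) * S p k = emb p (Nu p k) := by
  unfold S SP Nu
  rw [map_sum, map_sum, Finset.mul_sum]
  apply Finset.sum_congr rfl
  intro j hj
  have hjk : p ^ j ≤ p ^ k := Nat.pow_le_pow_right (Fact.out : p.Prime).pos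
    (by rw [Finset.mem_range] at hj; omega)
  rw [HahnSeries.ofPowerSeries_X_pow, emb_X_pow, emb_X_pow, HahnSeries.single_mul_single, mul_one]
  congr 1
  push_cast [hjk]
  ring_nf

lemma coprime_Nu (k m : ℕ) : IsCoprime ((X : (ZMod p)[X]) ^ m) (Nu p k) := by
  apply IsCoprime.pow_left
  have h : (Nu p k).coeff 0 = 1 := by
    unfold Nu
    rw [finsetSum_coeff, Finset.sum_eq_single k]
    · simp
    · intro j hj hjk
      rw [Finset.mem_range] at hj
      have : p ^ j < p ^ k := Nat.pow_lt_pow_right (Fact.out : p.Prime).one_lt (by omega)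
      rw [coeff_X_pow, if_neg (by omega)]
    · intro h
      exact absurd (Finset.mem_range.2 (Nat.lt_succ_self k)) h
  have h2 : Nu p k = X * (Nu p k).divX + C 1 := by
    conv_lhs => rw [← divX_mul_X_add (Nu p k), h]
    ring
  rw [h2, map_one]
  exact ⟨-(Nu p k).divX, 1, by ring⟩

lemma absT_X_pow (m : ℕ) : absT p ((X : (ZMod p)[X]) ^ m) = (p : ℝ) ^ m := by
  unfold absT
  rw [if_neg (pow_ne_zero _ X_ne_zero), natDegree_X_pow]

lemma absT_le_of_dvd {a b : (ZMod p)[X]} (hb : b ≠ 0) (h : a ∣ b) : absT p a ≤ absT p b := by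
  have ha : a ≠ 0 := by
    rintro rfl
    exact hb (zero_dvd_iff.1 h)
  unfold absT
  rw [if_neg ha, if_neg hb]
  exact pow_le_pow_right₀ (one_lt_p p).le (natDegree_le_of_dvd h hb)

/-- polynomials with the root `r k` have height at least `|Q k|` -/
lemma height_ge (P : (ZMod p)[X][X]) (hP : P ≠ 0) (k : ℕ)
    (h : P.eval₂ (emb p) (S p k) = 0) : (p : ℝ) ^ (p ^ k) ≤ height p P := by
  have hom0 : hom p P P.natDegree (Nu p k) (X ^ (p ^ k)) = 0 := by
    apply emb_injective p
    rw [map_hom p (emb p) P P.natDegree le_rfl _ _ (S p k) (den_mul p k), h, mul_zero, map_zero]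
  unfold hom at hom0
  rw [Finset.sum_range_succ] at hom0
  have hdvd : (X : (ZMod p)[X]) ^ (p ^ k) ∣ P.coeff P.natDegree * Nu p k ^ P.natDegree := by
    have h1 : (X : (ZMod p)[X]) ^ (p ^ k) ∣ ∑ i ∈ Finset.range P.natDegree,
        P.coeff i * Nu p k ^ i * (X ^ (p ^ k)) ^ (P.natDegree - i) := by
      apply Finset.dvd_sum
      intro i hi
      rw [Finset.mem_range] at hi
      exact Dvd.dvd.mul_left (dvd_pow_self _ (by omega)) _
    have e : P.coeff P.natDegree * Nu p k ^ P.natDegree = -∑ i ∈ Finset.range P.natDegree,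
        P.coeff i * Nu p k ^ i * (X ^ (p ^ k)) ^ (P.natDegree - i) := by
      rw [Nat.sub_self, pow_zero, mul_one] at hom0
      exact eq_neg_of_add_eq_zero_right hom0
    rw [e]
    exact (dvd_neg).2 h1
  have hdvd2 : (X : (ZMod p)[X]) ^ (p ^ k) ∣ P.coeff P.natDegree :=
    (coprime_Nu p k (p ^ k)).pow_right.dvd_of_dvd_mul_right hdvd
  have hne : P.coeff P.natDegree ≠ 0 := leadingCoeff_ne_zero.2 hP
  calc (p : ℝ) ^ (p ^ k) = absT p ((X : (ZMod p)[X]) ^ (p ^ k)) := (absT_X_pow p _).symm
    _ ≤ absT p (P.coeff P.natDegree) := absT_le_of_dvd p hne hdvd2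
    _ ≤ height p P := coeff_le_height p P _

/-- Liouville's inequality at `r k` -/
lemma liouville (P : (ZMod p)[X][X]) (n : ℕ) (hn : P.natDegree ≤ n) (k : ℕ)
    (h : P.eval₂ (emb p) (S p k) ≠ 0) (α : LaurentSeries (ZMod p)) (hα : absv p α ≤ 1)
    (h0 : P.eval₂ (emb p) α = 0) :
    1 ≤ ((p : ℝ) ^ (p ^ k)) ^ n * (height p P * absv p (S p k - α)) := by
  have h1 := eval_sub_le p P (S p k) α (absv_ofPowerSeries_le p _) hα
  rw [h0, sub_zero] at h1
  have h2 := map_hom p (emb p) P n hn _ _ (S p k) (den_mul p k)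
  have h3 : hom p P n (Nu p k) (X ^ (p ^ k)) ≠ 0 := by
    intro h3
    rw [h3, map_zero] at h2
    rcases mul_eq_zero.1 h2.symm with h4 | h4
    · have h5 := absv_emb p (X ^ (p ^ k))
      rw [(pow_eq_zero_iff'.1 h4).1, absv_zero, absT_X_pow] at h5
      exact (pow_pos (p_pos p) _).ne h5
    · exact h h4
  have h4 := one_le_absT p h3
  rw [← absv_emb, h2, absv_mul, absv_pow, absv_emb, absT_X_pow] at h4
  refine h4.trans ?_
  exact mul_le_mul_of_nonneg_left h1 (by positivity)

lemma absv_diff' (k : ℕ) : absv p (xi p - S p k) = (((p : ℝ) ^ (p ^ k)) ^ p)⁻¹ := by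
  rw [absv_diff, zpow_neg, zpow_natCast, ← pow_mul, ← pow_succ]

lemma tendsto_Q : Filter.Tendsto (fun k : ℕ => (p : ℝ) ^ (p ^ k)) Filter.atTop Filter.atTop := by
  have h1 : Filter.Tendsto (fun k : ℕ => p ^ k) Filter.atTop Filter.atTop :=
    Filter.tendsto_atTop_mono (fun k => (Nat.lt_pow_self (Fact.out : p.Prime).one_lt).le) Filter.tendsto_id
  exact (tendsto_pow_atTop_atTop_of_one_lt (one_lt_p p)).comp h1

/-- `ξ` has degree greater than `n` for every `n < p` -/
lemma degree_gt (n : ℕ) (hnp : n < p) (P : (ZMod p)[X][X]) (hP : P ≠ 0) (hn : P.natDegree ≤ n) :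
    P.eval₂ (emb p) (xi p) ≠ 0 := by
  intro h0
  have hev := (tendsto_Q p).eventually_gt_atTop (height p P)
  obtain ⟨k₀, hk₀⟩ := Filter.eventually_atTop.1 hev
  have hroot : ∀ k, k₀ ≤ k → P.eval₂ (emb p) (S p k) = 0 := by
    intro k hk
    by_contra hne
    have h1 := liouville p P n hn k hne (xi p) (absv_ofPowerSeries_le p _) h0
    rw [absv_sub_comm, absv_diff'] at h1
    set Q := (p : ℝ) ^ (p ^ k) with hQ
    have hQ1 : 1 ≤ Q := one_le_pow₀ (one_lt_p p).le
    have hQ0 : 0 < Q := by linarith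
    have h2 : Q ^ (n + 1) ≤ Q ^ p := pow_le_pow_right₀ hQ1 hnp
    have h3 : height p P < Q := hk₀ k hk
    have h4 : Q ^ n * (height p P * (Q ^ p)⁻¹) < 1 := by
      rw [← mul_assoc, ← div_eq_mul_inv, div_lt_one (by positivity)]
      calc Q ^ n * height p P < Q ^ n * Q := mul_lt_mul_of_pos_left h3 (by positivity)
        _ = Q ^ (n + 1) := (pow_succ _ _).symm
        _ ≤ Q ^ p := h2
    linarith
  have hmap : P.map (emb p) ≠ 0 := by
    rw [Ne, Polynomial.map_eq_zero_iff (emb_injective p)]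
    exact hP
  apply hmap
  apply eq_zero_of_infinite_isRoot
  have hinj : Function.Injective (S p) := by
    intro i j hij
    have h1 := absv_diff p i
    rw [hij, absv_diff] at h1
    have h2 := zpow_right_injective₀ (p_pos p) (one_lt_p p).ne' h1
    have h3 : p ^ (j + 1) = p ^ (i + 1) := by
      have := neg_injective h2
      exact_mod_cast this
    have := pow_inj p h3
    omega
  refine Set.Infinite.mono ?_ ((Set.Ici_infinite k₀).image hinj.injOn)
  rintro _ ⟨k, hk, rfl⟩
  show IsRoot _ _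
  rw [IsRoot, eval_map]
  exact hroot k hk

lemma charP_ps : CharP (PowerSeries (ZMod p)) p :=
  charP_of_injective_ringHom (f := (PowerSeries.C : ZMod p →+* PowerSeries (ZMod p))) PowerSeries.C_injective p

lemma frob (k : ℕ) : SP p k ^ p = SP p (k + 1) - PowerSeries.X := by
  have : CharP (PowerSeries (ZMod p)) p := charP_ps p
  unfold SP
  rw [sum_pow_char p, Finset.sum_range_succ' _ (k + 1)]
  simp only [← pow_mul, ← pow_succ]
  simp

lemma xiP_pow : xiP p ^ p = xiP p - PowerSeries.X := by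
  rw [← sub_eq_zero]
  ext m
  obtain ⟨k, hk⟩ : ∃ k : ℕ, m < p ^ (k + 1) :=
    ⟨m, (Nat.lt_pow_self (Fact.out : p.Prime).one_lt).trans
      (Nat.pow_lt_pow_right (Fact.out : p.Prime).one_lt (Nat.lt_succ_self m))⟩
  have hR : PowerSeries.X ^ (p ^ (k + 1)) ∣ xiP p - SP p k := by
    rw [PowerSeries.X_pow_dvd_iff]
    exact fun m hm => coeff_diff_lt p k m hm
  have hS : SP p (k + 1) = SP p k + PowerSeries.X ^ (p ^ (k + 1)) := by
    unfold SP
    rw [Finset.sum_range_succ _ (k + 1)]
  have e : xiP p ^ p - (xiP p - PowerSeries.X) =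
      PowerSeries.X ^ (p ^ (k + 1)) + (xiP p - SP p k) ^ p - (xiP p - SP p k) := by
    have : CharP (PowerSeries (ZMod p)) p := charP_ps p
    rw [sub_pow_char, frob, hS]
    ring
  have hd : PowerSeries.X ^ (p ^ (k + 1)) ∣ xiP p ^ p - (xiP p - PowerSeries.X) := by
    rw [e]
    exact dvd_sub (dvd_add dvd_rfl (hR.trans (dvd_pow_self _ (Fact.out : p.Prime).ne_zero))) hR
  rw [PowerSeries.X_pow_dvd_iff] at hd
  rw [hd m hk]
  rfl

/-- `ξ` is a root of `T X^p - T X + 1` -/
lemma xi_root : (C X * X ^ p - C X * X + 1 : (ZMod p)[X][X]).eval₂ (emb p) (xi p) = 0 := by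
  have h1 : xi p ^ p = xi p - HahnSeries.single 1 1 := by
    unfold xi
    rw [← map_pow, xiP_pow, map_sub, HahnSeries.ofPowerSeries_X]
  have h2 := emb_X_pow p 1
  rw [pow_one] at h2
  simp only [eval₂_add, eval₂_sub, eval₂_mul, eval₂_C, eval₂_X, eval₂_X_pow, eval₂_one]
  rw [h1, h2]
  have h3 : (HahnSeries.single (-((1 : ℕ) : ℤ)) (1 : ZMod p)) * HahnSeries.single 1 1 = 1 := by
    rw [HahnSeries.single_mul_single]
    simp
  linear_combination -h3

lemma star_le (n : ℕ) (hnp : n < p) (w : ℝ) (hw : StarProp p n (xi p) w) :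
    w ≤ ((p : ℝ) - 1) / (p - n) := by
  by_contra hcon
  push Not at hcon
  have hnp' : (n : ℝ) + 1 ≤ p := by exact_mod_cast hnp
  have hpn : (0 : ℝ) < p - n := by linarith
  have hδ : 0 < w * (p - n) - (p - 1) := by
    rw [div_lt_iff₀ hpn] at hcon
    linarith
  have hw0 : 0 < w := lt_of_le_of_lt (div_nonneg (by linarith [one_lt_p p]) hpn.le) hcon
  obtain ⟨H₀, hH₀⟩ := hw
  -- choose `k` large
  have hev1 := (tendsto_Q p).eventually_gt_atTop (2 * max H₀ 1)
  have hev2 := ((tendsto_rpow_atTop hδ).comp (tendsto_Q p)).eventually_ge_atTop ((2 : ℝ) ^ w)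
  obtain ⟨k, hk1, hk2⟩ := (hev1.and hev2).exists
  simp only [Function.comp_apply] at hk2
  set Q := (p : ℝ) ^ (p ^ k) with hQ
  have hQ1 : 1 ≤ Q := one_le_pow₀ (one_lt_p p).le
  have hQ0 : 0 < Q := by linarith
  set H : ℝ := Q ^ (p - n) / 2 with hH
  have hQH : Q ≤ Q ^ (p - n) := le_self_pow₀ hQ1 (by omega)
  have hHH₀ : H₀ < H := by
    rw [hH, lt_div_iff₀ two_pos]
    have := le_max_left H₀ 1
    linarith
  have hH1 : 1 < H := by
    rw [hH, lt_div_iff₀ two_pos]
    have := le_max_right H₀ 1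
    linarith
  have hH0 : 0 < H := by linarith
  -- `H ^ w ≥ Q ^ (p - 1)`
  have hHw : Q ^ (p - 1) ≤ H ^ w := by
    have e1 : H ^ w = Q ^ (w * (p - n)) / 2 ^ w := by
      rw [hH, Real.div_rpow (by positivity) (by norm_num), ← Real.rpow_natCast, ← Real.rpow_mul hQ0.le]
      congr 2
      rw [Nat.cast_sub hnp.le]
      ring
    have e2 : Q ^ (w * (p - n)) = Q ^ (w * (p - n) - (p - 1)) * Q ^ (p - 1) := by
      rw [← Real.rpow_natCast Q (p - 1), ← Real.rpow_add hQ0]
      congr 1
      rw [Nat.cast_sub (Fact.out : p.Prime).one_lt.le]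
      push_cast
      ring
    rw [e1, e2, le_div_iff₀ (by positivity), mul_comm]
    exact mul_le_mul_of_nonneg_right hk2 (by positivity)
  have hHw' : H ^ (-w) ≤ (Q ^ (p - 1))⁻¹ := by
    rw [Real.rpow_neg hH0.le]
    exact inv_anti₀ (by positivity) hHw
  obtain ⟨α, P, ⟨hirr, hroot⟩, hdeg, hht, -, hlt⟩ := hH₀ H hHH₀
  set h := height p P with hh
  have hh1 : 1 ≤ h := one_le_height p hirr.ne_zero
  have hh0 : 0 < h := by linarith
  have hlt' : absv p (xi p - α) < h⁻¹ * (Q ^ (p - 1))⁻¹ :=
    hlt.trans_le (mul_le_mul_of_nonneg_left hHw' (by positivity))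
  have hQp : Q ^ p = Q * Q ^ (p - 1) := by
    rw [← pow_succ']
    congr 1
    have := (Fact.out : p.Prime).one_lt
    omega
  have hα : absv p α ≤ 1 := by
    have e : α = xi p + -(xi p - α) := by ring
    rw [e]
    refine (absv_add p _ _).trans (max_le (absv_ofPowerSeries_le p _) ?_)
    rw [absv_neg]
    refine hlt'.le.trans ?_
    exact mul_le_one₀ (inv_le_one_of_one_le₀ hh1) (by positivity)
      (inv_le_one_of_one_le₀ (one_le_pow₀ hQ1))
  by_cases hS : P.eval₂ (emb p) (S p k) = 0
  · -- `α = r k`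
    have hαS : α = S p k := root_unique p P hirr (Nu p k) (X ^ (p ^ k)) (pow_ne_zero _ X_ne_zero) _ _
      (den_mul p k) hS hroot
    have hhQ : Q ≤ h := height_ge p P hirr.ne_zero k hS
    rw [hαS, absv_diff'] at hlt'
    have : h⁻¹ * (Q ^ (p - 1))⁻¹ ≤ (Q ^ p)⁻¹ := by
      rw [hQp, mul_inv]
      exact mul_le_mul_of_nonneg_right (inv_anti₀ hQ0 hhQ) (by positivity)
    linarith
  · have h1 := liouville p P n hdeg k hS α hα hroot
    have e : S p k - α = -(xi p - S p k) + (xi p - α) := by ring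
    have h2 := absv_add p (-(xi p - S p k)) (xi p - α)
    rw [← e, absv_neg, absv_diff'] at h2
    have hnp1 : Q ^ n ≤ Q ^ (p - 1) := pow_le_pow_right₀ hQ1 (by omega)
    rcases le_max_iff.1 h2 with h3 | h3
    · -- `Q ^ (p - n) ≤ h`
      have h4 : 1 ≤ Q ^ n * (h * (Q ^ p)⁻¹) :=
        h1.trans (mul_le_mul_of_nonneg_left (mul_le_mul_of_nonneg_left h3 hh0.le) (by positivity))
      rw [← mul_assoc, ← div_eq_mul_inv, le_div_iff₀ (by positivity), one_mul] at h4
      have h5 : Q ^ p = Q ^ n * Q ^ (p - n) := by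
        rw [← pow_add]
        congr 1
        omega
      rw [h5] at h4
      have h6 : Q ^ (p - n) ≤ h := le_of_mul_le_mul_left h4 (by positivity)
      have h7 : h ≤ Q ^ (p - n) / 2 := hht
      have h8 : 0 < Q ^ (p - n) := by positivity
      linarith
    · have h4 : Q ^ n * (h * absv p (S p k - α)) < 1 := by
        calc Q ^ n * (h * absv p (S p k - α)) ≤ Q ^ n * (h * absv p (xi p - α)) := by gcongr
          _ < Q ^ n * (h * (h⁻¹ * (Q ^ (p - 1))⁻¹)) := by gcongr
          _ = Q ^ n * (Q ^ (p - 1))⁻¹ := by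
            rw [← mul_assoc h, mul_inv_cancel₀ hh0.ne', one_mul]
          _ ≤ 1 := by
            rw [← div_eq_mul_inv, div_le_one (by positivity)]
            exact hnp1
      linarith

/-- For every `n ≥ 2` and every prime `p > n + 1` there is an algebraic power series `ξ` over `𝔽_p`, of degree
greater than `n`, with `ŵ*_n(ξ) ≤ (p - 1) / (p - n) < n`. -/
theorem result (n : ℕ) (hn : 2 ≤ n) (p : ℕ) [Fact p.Prime] (hp : n + 1 < p) :
    ∃ ξ : LaurentSeries (ZMod p),
      (∃ P : (ZMod p)[X][X], P ≠ 0 ∧ P.eval₂ (emb p) ξ = 0) ∧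
      (∀ P : (ZMod p)[X][X], P ≠ 0 → P.natDegree ≤ n → P.eval₂ (emb p) ξ ≠ 0) ∧
      uniformStar p n ξ ≤ (((p - 1 : ℝ) / (p - n) : ℝ) : EReal) ∧
      (p - 1 : ℝ) / (p - n) < n := by
  refine ⟨xi p, ⟨C X * X ^ p - C X * X + 1, ?_, xi_root p⟩, degree_gt p n (by omega), ?_, ?_⟩
  · intro h
    have h0 := congrArg (fun P => Polynomial.coeff P 0) h
    simp only [coeff_add, coeff_sub, coeff_C_mul, coeff_X_pow, coeff_X_zero, coeff_one_zero, mul_zero,
      coeff_zero] at h0
    rw [if_neg (by omega)] at h0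
    simp at h0
  · unfold uniformStar
    apply sSup_le
    rintro _ ⟨w, hw, rfl⟩
    exact EReal.coe_le_coe_iff.2 (star_le p n (by omega) w hw)
  · have h1 : (n : ℝ) + 1 < p := by exact_mod_cast hp
    have h2 : (2 : ℝ) ≤ n := by exact_mod_cast hn
    rw [div_lt_iff₀ (by linarith)]
    nlinarith

end Pool.Agent.Results.MP_7488b5_nt.MahlerRoots
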